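import Pool.Agent.helper14.TS.Spec

namespace Pool.Agent.TSPDP

open Finset

lemma CO_deg {E : Type} [Fintype E] [DecidableEq E] (s : Finset E) : ∑ e, ind s e = s.card := by
  simp [ind]

lemma CO_card {S : ℕ} {E : Type} [Fintype E] [DecidableEq E] {p : List (Instr S E)} {out : Fin S}
    {F : Finset (Finset E)} {m : ℕ} (h : Good p out F m) {t : Finset E} (ht : t ∈ F)
    {b b' : Finset E} (hb : b ⊆ t) (hx : ind b' + ind (t \ b) ∈ vecs p out) :
    b.card ≤ b'.card := by
  obtain ⟨t'', ht'', hle⟩ := h.ge _ hx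
  have h1 : ∑ e, ind t'' e ≤ ∑ e, (ind b' + ind (t \ b)) e := Finset.sum_le_sum fun e _ => hle e
  simp only [Pi.add_apply, Finset.sum_add_distrib, CO_deg, h.card _ ht''] at h1
  rw [Finset.card_sdiff_of_subset hb, h.card t ht] at h1
  have h2 := Finset.card_le_card hb
  rw [h.card t ht] at h2
  omega

theorem CO : CO_stmt := by
  intro S E _ _ p out F m hG t ht t' ht' τ hτ B B' hB hB' r hr hr'
  have hx := hB.subst r hr _ (hB'.mem r hr')
  have hx' := hB'.subst r hr' _ (hB.mem r hr)
  have hc : (B r).card = (B' r).card :=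
    le_antisymm (CO_card hG ht (hB.sub r) hx) (CO_card hG ht' (hB'.sub r) hx')
  obtain ⟨t'', ht'', hle⟩ := hG.ge _ hx
  have h2 := Finset.card_le_card (hB.sub r)
  rw [hG.card t ht] at h2
  have hsum : ∑ e, ind t'' e = ∑ e, (ind (B' r) + ind (t \ B r)) e := by
    simp only [Pi.add_apply, Finset.sum_add_distrib, CO_deg, hG.card _ ht'']
    rw [Finset.card_sdiff_of_subset (hB.sub r), hG.card t ht]
    omega
  have heq : ∀ e, ind t'' e = (ind (B' r) + ind (t \ B r)) e := by
    intro e
    exact (Finset.sum_eq_sum_iff_of_le (fun e _ => hle e)).1 hsum e (Finset.mem_univ e)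
  constructor
  · rw [Finset.disjoint_left]
    intro e he he'
    have h3 := heq e
    simp only [ind, Pi.add_apply, if_pos he, if_pos he'] at h3
    split_ifs at h3 <;> omega
  · have h4 : t \ B r ∪ B' r = t'' := by
      ext e
      have h3 := heq e
      simp only [ind, Pi.add_apply] at h3
      rw [Finset.mem_union]
      by_cases h5 : e ∈ t \ B r <;> by_cases h6 : e ∈ B' r <;> by_cases h7 : e ∈ t'' <;>
        simp [h5, h6, h7] at h3 ⊢
    rw [h4]
    exact ht''

end Pool.Agent.TSPDP
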